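import Pool.Agent.H324.RP.Final

/-!
# The rigid synchrony conjecture

For every coupled cell network, every admissible `C¹` vector field and every nondegenerate (in
particular every hyperbolic) periodic orbit of it: if the synchrony pattern of the orbit is rigid,
then it is balanced.

The definitions `Network`, `InputIso`, `Ph`, `st`, `Admissible` are in
`Pool/Agent/H848R3/RI/Net.lean`, `SmAdm` is in `Pool/Agent/H848R3/RI/Bump.lean`, `IsFund` is in
`Pool/Agent/H848R3/RI/Lin.lean`, `PeriodicOrbit` is in `Pool/Agent/H848R3/RI/Hyp.lean`, and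
`Nondegenerate` is in `Pool/Agent/H324/RP/Final.lean`.  The main tool is the theorem on rigid phase
relations of the starting library (`Pool.Agent.H324.RP.rigid_phase`).
-/

set_option autoImplicit false

open Pool.Agent.H848R3.RI Pool.Agent.H324.RP

namespace Pool.Agent.Results.MP_e1010f_an.RigidSynchronyBalanced

/-- The synchrony pattern of the curve `x`: `c` and `d` are related if `x_c(t) = x_d(t)` for all
`t`. -/
def Pattern {N : Network} {V : N.SType → Type} (x : ℝ → Ph N V) (c d : N.Node) : Prop :=
  ∀ t, st (x t) c = st (x t) d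

/-- The synchrony pattern of the `T`-periodic orbit `x` of the admissible field `f` is rigid: there
is `δ > 0` such that for every smooth admissible `h` with `‖h‖ < δ`, `‖Dh‖ < δ` everywhere, the
nearby periodic orbit of `f + h` (every periodic orbit `x'` of `f + h` of period `T'`,
`|T' - T| < δ`, that is `δ`-close to `x` on `[0, T]`) has `x'_c = x'_d` for all `c`, `d` related by
the pattern of `x`. -/
def RigidPattern {N : Network} {V : N.SType → Type} [∀ τ, NormedAddCommGroup (V τ)]
    [∀ τ, NormedSpace ℝ (V τ)] (f : Ph N V → Ph N V) (x : ℝ → Ph N V) (T : ℝ) : Prop :=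
  ∃ δ > 0, ∀ h : Ph N V → Ph N V, SmAdm h → (∀ z, ‖h z‖ < δ ∧ ‖fderiv ℝ h z‖ < δ) →
    ∀ (x' : ℝ → Ph N V) (T' : ℝ), PeriodicOrbit (fun z => f z + h z) x' T' → |T' - T| < δ →
      (∀ t ∈ Set.Icc 0 T, ‖x' t - x t‖ < δ) → ∀ c d, Pattern x c d → Pattern x' c d

/-- The relation `R` on the nodes is balanced: related nodes have an input isomorphism (nodes of
equal type, and a bijection between the input sets that preserves the arrow types) that matches
every input arrow with one whose tail is related to its tail. -/
def Balanced (N : Network) (R : N.Node → N.Node → Prop) : Prop :=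
  ∀ c d, R c d → ∃ β : InputIso N c d, ∀ e : N.In c, R (N.tail e.1) (N.tail (β.toEquiv e).1)

/-- **The rigid synchrony conjecture**: for every network, every admissible `C¹` vector field `f` and
every nondegenerate (in particular every hyperbolic) periodic orbit `x` of `f`, if the synchrony
pattern of `x` is rigid, then it is balanced. -/
theorem result (N : Network) (V : N.SType → Type) [∀ τ, NormedAddCommGroup (V τ)]
    [∀ τ, NormedSpace ℝ (V τ)] [∀ τ, FiniteDimensional ℝ (V τ)] [∀ τ, Nontrivial (V τ)]
    (f : Ph N V → Ph N V) (hf : Admissible f) (x : ℝ → Ph N V) (T : ℝ)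
    (hx : PeriodicOrbit f x T) (hh : Nondegenerate f x T) (hr : RigidPattern f x T) :
    Balanced N (Pattern x) := by
  obtain ⟨δ, hδ, hall⟩ := hr
  have hp : PerOrb f x T := hx.perOrb hf.smooth
  obtain ⟨R, hR1, hR2, hR3, -⟩ := rigid_phase hf hp (hh.nDeg hf.smooth hp) hδ 0
  have hRP : ∀ c d, R c d ↔ Pattern x c d := by
    intro c d
    constructor
    · intro h t
      have h1 := hR2 c d h t
      simpa using h1
    · intro h
      refine hR1 c d ?_
      intro g x' T' h1 h2 h3 h4 h5 t
      have h6 := hall g h1 h2 x' T' h3.periodicOrbit h4 h5 c d h t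
      simpa using h6
  intro c d hcd
  obtain ⟨β, hβ⟩ := hR3 c d ((hRP c d).2 hcd)
  exact ⟨β, fun e => (hRP _ _).1 (hβ e)⟩

end Pool.Agent.Results.MP_e1010f_an.RigidSynchronyBalanced
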